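import Pool.Agent.X184.SS.Stm

/-! SPR: spreading. -/

set_option autoImplicit false

namespace Pool.Agent.X114.SS

open Finset Pool.Agent.X184.SS

theorem t_SPR : S_SPR := by
  intro n
  induction n with
  | zero =>
    intro F f hF _ _
    exact (Finset.card_image_le).trans hF
  | succ n ih =>
    rintro F f ⟨k, G, hG, hord, rfl, hk⟩ hmono hle
    have hsub : ∀ i, G i ⊆ univ.biUnion G := fun i => Finset.subset_biUnion_of_mem G (mem_univ i)
    refine ⟨k, fun i => (G i).image f, fun i => ⟨(hG i).1.image f, ?_⟩, ?_, ?_, ?_⟩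
    · refine ih (G i) f (hG i).2 ?_ fun a ha => hle a (hsub i ha)
      exact hmono.mono (by exact_mod_cast hsub i)
    · intro i j hij a ha b hb
      obtain ⟨a', ha', rfl⟩ := Finset.mem_image.1 ha
      obtain ⟨b', hb', rfl⟩ := Finset.mem_image.1 hb
      exact hmono (by exact_mod_cast hsub i ha') (by exact_mod_cast hsub j hb')
        (hord i j hij a' ha' b' hb')
    · rw [Finset.biUnion_image]
    · intro a ha
      obtain ⟨a', ha', rfl⟩ := Finset.mem_image.1 ha
      have h1 := hk a' ha'
      have h2 := hle a' ha'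
      omega

end Pool.Agent.X114.SS
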